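import Pool.Agent.Helper42.KoebeProof

/-!
# The Koebe function does not maximise the integral means of the derivative below exponent one
-/

set_option autoImplicit false

namespace Pool.Agent.Results.MP_bc229f_an.BelowOne

open Pool.Agent.Helper42.KoebeMeans

/-- For every `0 < lam < 1` the best constant `C_lam` is larger than `1`. -/
theorem result (lam : ℝ) (h0 : 0 < lam) (h1 : lam < 1) : 1 < bestConstant lam :=
  one_lt_bestConstant lam h0 h1

end Pool.Agent.Results.MP_bc229f_an.BelowOne
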