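import Pool.Agent.KIQ.END

/-!
# The Koebe function maximises the integral means of the derivative for every exponent `lam ≥ 2`

`bestConstant lam` is the supremum over all `f` in the class `S` and all `0 < r < 1` of
`I_lam(r, f') / I_lam(r, k')`, `k` the Koebe function (`Pool.Agent.Helper42.KoebeDefs`).
-/

set_option autoImplicit false

namespace Pool.Agent.Results.MP_bc229f_an.KoebeExtremal

open Pool.Agent.Helper42.KoebeMeans

/-- `C_lam = 1` for every real `lam ≥ 2`. -/
theorem result (lam : ℝ) (h : 2 ≤ lam) : bestConstant lam = 1 :=
  Pool.Agent.KIQ.bestConstant_of_two_le h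

end Pool.Agent.Results.MP_bc229f_an.KoebeExtremal
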